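import Pool.Agent.V8H94.TX.Defs
import Pool.Agent.V8H94.TU.Main

/-!
# One of the four classes can be supersingular
-/

set_option autoImplicit false

namespace Pool.Agent.V8H94.TX

open Module TensorProduct Pool.Agent.V8H94.CT Pool.Agent.V8H94.TS

variable {p : ℕ} [Fact p.Prime] {Ω : Type} [Field Ω] [CharZero Ω]

theorem exists_isolated [IsAlgClosed Ω] (A : AbVar p Ω) {N : ℕ} (v : Fin N → A.H) (a : Fin N → Ω)
    (hv : ∀ i, A.F (v i) = a i • v i) (h0 : ∀ i, v i ≠ 0) :
    ∃ (D : AbVar p Ω) (h : D.H →ₗ[Ω] A.H) (u : Fin N → D.H), D.m = A.m ∧ TC.IsHom A D h ∧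
      (∀ i, D.F (u i) = a i • u i) ∧ (∀ i, h (u i) = v i) ∧
      ∀ l, ∃ e : D.H →ₗ[Ω] D.H, TC.IsHom D D e ∧ ∀ k, e (u k) = if k = l then u k else 0 := by
  have hw : ∀ i, IsWeil p A.m (a i) := fun i => isWeil_of_eigen A (h0 i) (hv i)
  obtain ⟨D, u, hDm, _, hu, hD⟩ := exists_universal' (p := p) (k := A.m)
    A.m_pos (W := {w : Ω | IsWeil p A.m w})
    (fun w hw b hb => VT.isWeil_root hw hb) a (fun i => ⟨hw i, hw i⟩)
  obtain ⟨h, hh, hhu⟩ := hD A 1 1 v (by
    intro i
    rw [pow_one, pow_one, hv])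
  refine ⟨D, h, u, hDm, (TC.isHom_iff A D h).2 ⟨1, 1, one_pos, one_pos, by rw [hDm], hh⟩, hu, hhu,
    fun l => ?_⟩
  obtain ⟨e, he, heu⟩ := hD D 1 1 (fun k => if k = l then u k else 0) (by
    intro k
    rw [pow_one, pow_one]
    split_ifs
    · exact hu k
    · rw [map_zero, smul_zero])
  exact ⟨e, (TC.isHom_iff D D e).2 ⟨1, 1, one_pos, one_pos, rfl, he⟩, heu⟩

theorem mem_eigen [IsAlgClosed Ω] {S : TC.CycleSystem p Ω} (h : TateWithSupersingular S)
    (A : AbVar p Ω) (v : Fin 4 → A.H) (a : Fin 4 → Ω) (hv0 : ∀ i, v i ≠ 0)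
    (hv : ∀ i, A.F (v i) = a i • v i) {s t : ℕ} (hs : 0 < s) (ht : 0 < t)
    (hprod : (∏ i, a i) ^ s = (p : Ω) ^ (A.m * 2 * s))
    (hsup : a 3 ^ (2 * t) = (p : Ω) ^ (A.m * 1 * t)) :
    (ExteriorAlgebra.ιMulti Ω 4 v : ExteriorAlgebra Ω A.H) ∈ S.C A := by
  obtain ⟨D, f, u, hDm, hf, hu, hfu, hsplit⟩ := exists_isolated A v a hv hv0
  let U : List (Ω × D.H) := List.ofFn fun i => (a i, u i)
  have hU : ∀ y ∈ U, D.F y.2 = y.1 • y.2 := by
    intro y hy
    obtain ⟨i, rfl⟩ := (List.mem_ofFn' _ y).1 hy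
    exact hu i
  have hU1 : (U.map Prod.fst).prod = ∏ i, a i := by
    simp only [U, List.map_ofFn]
    exact List.prod_ofFn
  have hU2 : U.map Prod.snd = List.ofFn u := by
    simp only [U, List.map_ofFn]
    rfl
  have hw : (wedge (U.map Prod.snd) : ExteriorAlgebra Ω D.H) = extProd u := by
    rw [hU2]
    exact ofFn_wedge u
  have hT' : TC.IsTate D 2 (wedge (U.map Prod.snd) : ExteriorAlgebra Ω D.H) := by
    refine ⟨?_, s, hs, ?_⟩
    · have h2 := wedge_mem (R := Ω) (U.map Prod.snd)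
      have h3 : (U.map Prod.snd).length = 2 * 2 := by
        rw [hU2, List.length_ofFn]
      rwa [h3] at h2
    · have e1 : ExteriorAlgebra.map ((D.F : D.H →ₗ[Ω] D.H) ^ s)
          (wedge (U.map Prod.snd)) = (U.map Prod.fst).prod ^ s • wedge (R := Ω) (U.map Prod.snd) :=
        map_pow_wedge_eigen _ U hU s
      have e2 : (U.map Prod.fst).prod ^ s = (p : Ω) ^ (D.m * 2 * s) := by
        rw [hU1, hDm]
        exact hprod
      exact e1.trans (congrArg (fun t => t • _) e2)
  have hS : IsSupersingular D (u 3) := by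
    let V : List (Ω × D.H) := [(a 3, u 3)]
    have hV : ∀ y ∈ V, D.F y.2 = y.1 • y.2 := by
      intro y hy
      rw [List.mem_singleton.1 hy]
      exact hu 3
    have hVw : (wedge (V.map Prod.snd) : ExteriorAlgebra Ω D.H) =
        extProd fun _ : Fin 1 => u 3 := by
      have e := ofFn_wedge (Ω := Ω) fun _ : Fin 1 => u 3
      have e' : List.ofFn (fun _ : Fin 1 => u 3) = V.map Prod.snd := by simp [V]
      rw [e'] at e
      exact e
    have h5 : TC.IsSupersingularClass D 1 (wedge (V.map Prod.snd) : ExteriorAlgebra Ω D.H) := by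
      refine ⟨?_, t, ht, ?_⟩
      · exact wedge_mem (R := Ω) (V.map Prod.snd)
      · have e1 : ExteriorAlgebra.map ((D.F : D.H →ₗ[Ω] D.H) ^ (2 * t))
            (wedge (V.map Prod.snd)) =
              (V.map Prod.fst).prod ^ (2 * t) • wedge (R := Ω) (V.map Prod.snd) :=
          map_pow_wedge_eigen _ V hV (2 * t)
        have e2 : (V.map Prod.fst).prod ^ (2 * t) = (p : Ω) ^ (D.m * 1 * t) := by
          rw [hDm, ← hsup]
          simp [V]
        exact e1.trans (congrArg (fun t => t • _) e2)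
    rw [hVw] at h5
    exact h5
  have h3 := h D u hS hsplit (by rw [← hw]; exact hT')
  have h4 := S.pull_mem A D f hf _ h3
  have h5 : TC.pull A D f (extProd u : ExteriorAlgebra Ω D.H) =
      (ExteriorAlgebra.ιMulti Ω 4 v : ExteriorAlgebra Ω A.H) := by
    rw [← hw]
    refine (map_wedge f (U.map Prod.snd)).trans ?_
    rw [hU2, List.map_ofFn, ← ofFn_wedge]
    congr 2
    funext i
    exact hfu i
  rw [h5] at h4
  exact h4

theorem supersingularProducts [IsAlgClosed Ω] {S : TC.CycleSystem p Ω}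
    (h : TateWithSupersingular S) (A : AbVar p Ω) : TC.SupersingularProducts S A := by
  rintro x y ⟨hx, s, hs, hxs⟩ ⟨hy, t, ht, hyt⟩
  have h1 := mem_span_eigen A.F A.span_eigen 3 (2 * s) _ x hx hxs
  have h2 := mem_span_eigen A.F A.span_eigen 1 (2 * t) _ y hy hyt
  clear hx hxs hy hyt
  induction h1 using Submodule.span_induction with
  | zero =>
    rw [zero_mul]
    exact (S.C A).zero_mem
  | add x x' _ _ hx hx' =>
    rw [add_mul]
    exact (S.C A).add_mem hx hx'
  | smul c x _ hx =>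
    rw [smul_mul_assoc]
    exact (S.C A).smul_mem c hx
  | mem x hx =>
    obtain ⟨v, a, hv0, hv, hva, rfl⟩ := hx
    induction h2 using Submodule.span_induction with
    | zero =>
      rw [mul_zero]
      exact (S.C A).zero_mem
    | add y y' _ _ hy hy' =>
      rw [mul_add]
      exact (S.C A).add_mem hy hy'
    | smul c y _ hy =>
      rw [mul_smul_comm]
      exact (S.C A).smul_mem c hy
    | mem y hy =>
      obtain ⟨w, b, hw0, hw, hwb, rfl⟩ := hy
      have h3 := mem_eigen h A ![v 0, v 1, v 2, w 0] ![a 0, a 1, a 2, b 0]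
        (by
          intro i
          fin_cases i
          · exact hv0 0
          · exact hv0 1
          · exact hv0 2
          · exact hw0 0)
        (by
          intro i
          fin_cases i
          · exact hv 0
          · exact hv 1
          · exact hv 2
          · exact hw 0) (s := 2 * s * t) (t := t) (by positivity) ht
        (by
          rw [Fin.prod_univ_three] at hva
          rw [Fin.prod_univ_one] at hwb
          rw [Fin.prod_univ_four]
          have e : (a 0 * a 1 * a 2 * b 0) ^ (2 * s * t) =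
              (a 0 ^ (2 * s) * a 1 ^ (2 * s) * a 2 ^ (2 * s)) ^ t * (b 0 ^ (2 * t)) ^ s := by
            ring
          refine Eq.trans e ?_
          rw [hva, hwb, ← pow_mul, ← pow_mul, ← pow_add]
          congr 1
          ring)
        (by
          rw [Fin.prod_univ_one] at hwb
          exact hwb)
      have e : (ExteriorAlgebra.ιMulti Ω 3 v * ExteriorAlgebra.ιMulti Ω 1 w :
          ExteriorAlgebra Ω A.H) = ExteriorAlgebra.ιMulti Ω 4 ![v 0, v 1, v 2, w 0] := by
        rw [← ofFn_wedge, ← ofFn_wedge, ← ofFn_wedge, ← wedge_append]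
        rfl
      exact e ▸ h3

theorem tateHolds_all [IsAlgClosed Ω] {S : TC.CycleSystem p Ω} (hdiv : ∀ A, TC.TateHolds S A 1)
    (h : TateWithSupersingular S) (A : AbVar p Ω) :
    TC.GeneralisedTate S A ∧ ∀ r, TC.TateHolds S A r := by
  obtain ⟨B, y, z, hAB, _, _, _, hB⟩ := TC.generalised_of_one_class A
  have h1 := hB S (hdiv B)
  have h2 := (h1.out 3 0).1 (supersingularProducts h B)
  have h3 := (h1.out 3 1).1 (supersingularProducts h B)
  exact ⟨h2 A hAB, fun r => h3 A hAB r⟩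

open Pool.Agent.V8H94.TC Pool.Agent.V8H94.TV

/-- **The main theorem.** -/
theorem main [IsAlgClosed Ω] (H : Cohomology p Ω) (Z : Cycles p H.T) (W : Set H.T.V)
    (c : H.T.V → ℕ → ℕ)
    (hc : ∀ X ∈ W, ∀ i ≤ H.T.dim X, 2 * c X i ≤ i ∧ SlopesAtLeast p H.T X i (c X i)) :
    ((∀ A : AbVar p Ω, GeneralisedTate Z.S A ∧ ∀ r, TateHolds Z.S A r) ∧
      ∀ X, IsProduct H.T W X → ∀ A : AbVar p Ω, StrongTate Z X A ∧ GeneralisedTate₂ Z X A) ↔
    ((∀ A : AbVar p Ω, TateHolds Z.S A 1) ∧ TateWithSupersingular Z.S ∧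
      ∀ X ∈ W, ∀ i ≤ H.T.dim X, TateInDegrees Z X i (i - 2 * c X i) (i - c X i)) := by
  constructor
  · intro h
    obtain ⟨h1, _, h3⟩ := (TU.main H Z W c hc).1 h
    exact ⟨h1, fun B v _ _ ht => (h.1 B).2 2 _ ht, h3⟩
  · rintro ⟨h1, h2, h3⟩
    exact (TU.main H Z W c hc).2 ⟨h1, fun B b _ ht => (tateHolds_all h1 h2 B).2 2 b ht, h3⟩

end Pool.Agent.V8H94.TX
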