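import Pool.Agent.V8H94.TS.Defs

/-!
# Tate classes which are products of classes of degree one, one of them supersingular
-/

set_option autoImplicit false

namespace Pool.Agent.V8H94.TX

open Pool.Agent.V8H94.TC Pool.Agent.V8H94.TS
open Pool.Agent.V8H94.CT (AbVar)

variable {p : ℕ} [Fact p.Prime] {Ω : Type} [Field Ω] [CharZero Ω]

/-- The class `v` of degree one on `B` is supersingular: it comes from a supersingular elliptic curve. -/
def IsSupersingular (B : AbVar p Ω) (v : B.H) : Prop :=
  IsSupersingularClass B 1 (extProd fun _ : Fin 1 => v)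

/-- The Tate conjecture for the classes in `H ^ 1 (B₁) ⊗ H ^ 1 (B₂) ⊗ H ^ 1 (B₃) ⊗ H ^ 1 (E)`, for all
abelian varieties `B₁, B₂, B₃` and supersingular elliptic curves `E`: products of classes `v k` of
degree one on `B`, such that `v 3` is supersingular and that there are endomorphisms `e` of `B` with
`e (v l) = v l` and `e (v k) = 0` for `k ≠ l`. -/
def TateWithSupersingular (S : CycleSystem p Ω) : Prop :=
  ∀ (B : AbVar p Ω) (v : Fin 4 → B.H), IsSupersingular B (v 3) →
    (∀ l, ∃ e : B.H →ₗ[Ω] B.H, IsHom B B e ∧ ∀ k, e (v k) = if k = l then v k else 0) →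
    IsTate B 2 (extProd v) → extProd v ∈ S.C B

end Pool.Agent.V8H94.TX
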